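import Pool.Agent.H486.LP.Stm
import Pool.Graph.R_pool_sql_team_seeded_63374d34.N799.DT.Main

/-!
# LP-P12: the mean value property with bounded eigenvalue
-/

set_option autoImplicit false

open UpperHalfPlane MeasureTheory Metric ModularGroup CongruenceSubgroup Set Filter
open scoped MatrixGroups ENNReal Modular Topology NNReal ComplexConjugate ContDiff

namespace Pool.Agent.H800.LP

open Pool.Agent.H369R2 Pool.Agent.N799.DT Pool.Agent.H486.LF Pool.Agent.H486.LG Pool.Agent.H486.LP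

noncomputable section

/-- the equation in logarithmic polar coordinates -/
theorem conf' {μ : ℝ} {f : ℂ → ℂ} (hf : LapM μ f) (z : ℍ) :
    ContDiffOn ℝ (⊤ : ℕ∞) (fun p : ℝ × ℝ => pl f z p.1 p.2) {p | p.1 < 0} ∧
    ∀ u θ : ℝ, u < 0 →
      deriv (fun s : ℝ => deriv (fun t : ℝ => pl f z t θ) s) u +
        deriv (fun s : ℝ => deriv (fun t : ℝ => pl f z u t) s) θ =
          -((μ / Real.sinh u ^ 2 : ℝ) : ℂ) * pl f z u θ := by
  have hU : ContDiffOn ℝ (⊤ : ℕ∞) f Conf.U := hf.smooth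
  constructor
  · have hg : ContDiffOn ℝ (⊤ : ℕ∞)
        (fun p : ℝ × ℝ => dc z (Complex.exp ((p.1 : ℂ) + (p.2 : ℂ) * Complex.I)))
        {p : ℝ × ℝ | p.1 < 0} := by
      unfold dc
      have he : ContDiff ℝ (⊤ : ℕ∞)
          (fun p : ℝ × ℝ => Complex.exp ((p.1 : ℂ) + (p.2 : ℂ) * Complex.I)) := by
        have a1 : ContDiff ℝ (⊤ : ℕ∞) (fun p : ℝ × ℝ => ((p.1 : ℝ) : ℂ)) :=
          Complex.ofRealCLM.contDiff.comp contDiff_fst
        have a2 : ContDiff ℝ (⊤ : ℕ∞) (fun p : ℝ × ℝ => ((p.2 : ℝ) : ℂ)) :=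
          Complex.ofRealCLM.contDiff.comp contDiff_snd
        exact ContDiff.cexp (a1.add (a2.mul contDiff_const))
      have b1 : ContDiff ℝ (⊤ : ℕ∞) (fun p : ℝ × ℝ => (z : ℂ) - conj (z : ℂ) *
          Complex.exp ((p.1 : ℂ) + (p.2 : ℂ) * Complex.I)) :=
        contDiff_const.sub (contDiff_const.mul he)
      have b2 : ContDiff ℝ (⊤ : ℕ∞) (fun p : ℝ × ℝ => 1 -
          Complex.exp ((p.1 : ℂ) + (p.2 : ℂ) * Complex.I)) :=
        contDiff_const.sub he
      refine b1.contDiffOn.mul (b2.contDiffOn.inv ?_)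
      intro p hp
      exact Conf.exp_ne (by simpa using hp)
    refine hU.comp hg ?_
    intro p hp
    exact Conf.mem_U z (by simpa using hp)
  · intro u θ hu
    set ζ : ℂ := (u : ℂ) + (θ : ℂ) * Complex.I with hζ
    have hre : ζ.re < 0 := by simpa [hζ] using hu
    obtain ⟨M, hM⟩ := Conf.diff_dL z hre
    -- the horizontal direction
    have hx1 : ∀ t : ℝ, HasDerivAt (fun t : ℝ => (t : ℂ) + (θ : ℂ) * Complex.I) 1 t := fun t =>
      (Complex.ofRealCLM.hasDerivAt (x := t)).add_const _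
    have hx := Conf.second f hU
      (fun t : ℝ => dc z (Complex.exp ((t : ℂ) + (θ : ℂ) * Complex.I)))
      (fun t : ℝ => Conf.dL z ((t : ℂ) + (θ : ℂ) * Complex.I)) M u
      (by
        filter_upwards [Iio_mem_nhds hu] with t ht
        exact Conf.mem_U z (by simpa using ht))
      (by
        filter_upwards [Iio_mem_nhds hu] with t ht
        have h1 := (Conf.hasDeriv_L z (ζ := (t : ℂ) + (θ : ℂ) * Complex.I)
          (by simpa using ht)).comp_of_eq t (hx1 t) rfl
        rw [mul_one] at h1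
        exact h1)
      (by
        have h1 := HasDerivAt.comp_of_eq u hM (hx1 u) rfl
        rw [mul_one] at h1
        exact h1)
    -- the vertical direction
    have hy1 : ∀ t : ℝ, HasDerivAt (fun t : ℝ => (u : ℂ) + (t : ℂ) * Complex.I) Complex.I t := by
      intro t
      have h1 := ((Complex.ofRealCLM.hasDerivAt (x := t)).mul_const Complex.I).const_add (u : ℂ)
      simpa using h1
    have hy := Conf.second f hU
      (fun t : ℝ => dc z (Complex.exp ((u : ℂ) + (t : ℂ) * Complex.I)))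
      (fun t : ℝ => Conf.dL z ((u : ℂ) + (t : ℂ) * Complex.I) * Complex.I) (-M) θ
      (by
        refine Filter.Eventually.of_forall fun t => ?_
        exact Conf.mem_U z (by simpa using hu))
      (by
        refine Filter.Eventually.of_forall fun t => ?_
        have h1 := (Conf.hasDeriv_L z (ζ := (u : ℂ) + (t : ℂ) * Complex.I)
          (by simpa using hu)).comp_of_eq t (hy1 t) rfl
        exact h1)
      (by
        have h1 := (HasDerivAt.comp_of_eq θ hM (hy1 θ) rfl).mul_const Complex.I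
        have h2 : M * Complex.I * Complex.I = -M := by
          rw [mul_assoc, Complex.I_mul_I]
          ring
        rw [h2] at h1
        exact h1)
    set w : ℂ := dc z (Complex.exp ζ) with hw
    have hwU : w ∈ Conf.U := Conf.mem_U z hre
    have hsum : deriv (fun s : ℝ => deriv (fun t : ℝ => pl f z t θ) s) u +
        deriv (fun s : ℝ => deriv (fun t : ℝ => pl f z u t) s) θ =
        ((‖Conf.dL z ζ‖ ^ 2 : ℝ) : ℂ) * (fderiv ℝ (fderiv ℝ f) w 1 1 +
          fderiv ℝ (fderiv ℝ f) w Complex.I Complex.I) := by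
      rw [← Conf.bilin]
      unfold pl
      rw [hx, hy]
      simp only [← hζ, map_neg]
      ring
    -- the equation at `w`
    have heq := hf.eq ⟨w, hwU⟩
    have hcx := Conf.second f hU (fun t : ℝ => (t : ℂ) + (w.im : ℂ) * Complex.I) (fun _ => 1) 0 w.re
      (by
        refine Filter.Eventually.of_forall fun t => ?_
        show 0 < Complex.im _
        simpa using (show 0 < w.im from hwU))
      (by
        refine Filter.Eventually.of_forall fun t => ?_
        exact (Complex.ofRealCLM.hasDerivAt (x := t)).add_const _)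
      (hasDerivAt_const _ _)
    have hcy := Conf.second f hU (fun t : ℝ => (w.re : ℂ) + (t : ℂ) * Complex.I)
      (fun _ => Complex.I) 0 w.im
      (by
        filter_upwards [Ioi_mem_nhds (show 0 < w.im from hwU)] with t ht
        show 0 < Complex.im _
        simpa using ht)
      (by
        refine Filter.Eventually.of_forall fun t => ?_
        have h1 := ((Complex.ofRealCLM.hasDerivAt (x := t)).mul_const Complex.I).const_add
          (w.re : ℂ)
        simpa using h1)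
      (hasDerivAt_const _ _)
    simp only [map_zero, add_zero, Complex.re_add_im] at hcx hcy
    have heq' : -((w.im : ℂ) ^ 2) * (fderiv ℝ (fderiv ℝ f) w 1 1 +
          fderiv ℝ (fderiv ℝ f) w Complex.I Complex.I) = (μ : ℂ) * f w := by
      rw [← hcx, ← hcy]
      exact heq
    rw [hsum, Conf.ratio z hre]
    have hre' : ζ.re = u := by simp [hζ]
    rw [hre', ← hw]
    show _ = _ * f w
    push_cast
    linear_combination (-(1 : ℂ) / Complex.sinh (u : ℂ) ^ 2) * heq'



open Mean in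
/-- the differential equation of the circle means -/
theorem mean' {μ : ℝ} {f : ℂ → ℂ} (hL : LapM μ f) (z : ℍ) : ∃ G G₁ : ℝ → ℂ,
    (∀ u : ℝ, u < 0 → G u = ∫ θ in (0 : ℝ)..(2 * Real.pi), pl f z u θ) ∧
    (∀ u : ℝ, u < 0 → HasDerivAt G (G₁ u) u) ∧
    (∀ u : ℝ, u < 0 → HasDerivAt G₁ (-((μ / Real.sinh u ^ 2 : ℝ) : ℂ) * G u) u) ∧
    Filter.Tendsto G Filter.atBot (𝓝 (2 * Real.pi * f z)) ∧
    Filter.Tendsto G₁ Filter.atBot (𝓝 0) := by
  obtain ⟨hs, heq⟩ := conf' hL z
  set F : ℝ × ℝ → ℂ := fun p => pl f z p.1 p.2 with hF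
  have hs' : ContDiffOn ℝ ∞ F HS := hs
  have hw : ∀ u θ : ℝ, F (u, θ) = Ph f z (Complex.exp (u + θ * Complex.I)) := fun _ _ => rfl
  have hp : ∀ u θ, F (u, θ + 2 * Real.pi) = F (u, θ) := by
    intro u θ
    rw [hw, hw]
    congr 1
    push_cast
    rw [show (u : ℂ) + (θ + 2 * Real.pi) * Complex.I = (u + θ * Complex.I) + 2 * Real.pi * Complex.I
      by ring, Complex.exp_periodic]
  have hnorm : ∀ u θ : ℝ, ‖Complex.exp (u + θ * Complex.I)‖ = Real.exp u := by
    intro u θ
    rw [Complex.norm_exp]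
    simp
  have hsm := Ph_smooth hL.smooth z
  have hpi : (0 : ℝ) < 2 * Real.pi := by positivity
  refine ⟨fun u => ∫ θ in (0 : ℝ)..(2 * Real.pi), F (u, θ),
    fun u => ∫ θ in (0 : ℝ)..(2 * Real.pi), Da F (u, θ), fun u _ => rfl,
    fun u hu => dint hs' hu, fun u hu => ?_, ?_, ?_⟩
  · have h1 := dint (Da_smooth hs') hu
    have h2 : ∫ θ in (0 : ℝ)..(2 * Real.pi), Da (Da F) (u, θ) =
        -((μ / Real.sinh u ^ 2 : ℝ) : ℂ) *
          ∫ θ in (0 : ℝ)..(2 * Real.pi), F (u, θ) := by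
      have h3 : ∀ θ, Da (Da F) (u, θ) =
          -((μ / Real.sinh u ^ 2 : ℝ) : ℂ) * F (u, θ) - Db (Db F) (u, θ) := by
        intro θ
        have h4 := heq u θ hu
        have h5 := deriv2A hs' hu θ
        have h6 := deriv2B hs' hu θ
        simp only [hF] at h5 h6
        rw [h5, h6] at h4
        rw [← h4]
        ring
      simp only [h3]
      rw [intervalIntegral.integral_sub, per hs' hp hu, sub_zero,
        intervalIntegral.integral_const_mul]
      · exact (continuous_const.mul (slice hs' hu)).intervalIntegrable _ _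
      · exact (slice (Db_smooth (Db_smooth hs')) hu).intervalIntegrable _ _
    rw [h2] at h1
    exact h1
  · rw [Metric.tendsto_nhds]
    intro ε hε
    have hcont := hsm.continuousAt
    rw [Metric.continuousAt_iff] at hcont
    obtain ⟨δ, hδ, hd⟩ := hcont (ε / (4 * Real.pi)) (by positivity)
    filter_upwards [Iio_mem_atBot 0, Iio_mem_atBot (Real.log δ)] with u hu hu2
    have h1 : (∫ θ in (0 : ℝ)..(2 * Real.pi), F (u, θ)) - 2 * Real.pi * f z
        = ∫ θ in (0 : ℝ)..(2 * Real.pi), (F (u, θ) - f z) := by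
      rw [intervalIntegral.integral_sub ((slice hs' hu).intervalIntegrable _ _)
        intervalIntegrable_const, intervalIntegral.integral_const, sub_zero, Complex.real_smul]
      push_cast
      ring
    rw [dist_eq_norm, h1]
    have h2 : ‖∫ θ in (0 : ℝ)..(2 * Real.pi), (F (u, θ) - f z)‖ ≤
        ε / (4 * Real.pi) * |2 * Real.pi - 0| := by
      refine intervalIntegral.norm_integral_le_of_norm_le_const fun θ _ => ?_
      rw [hw, ← Ph_zero f z, ← dist_eq_norm]
      refine (hd ?_).le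
      rw [dist_zero_right, hnorm]
      have : u < Real.log δ := hu2
      exact (Real.lt_log_iff_exp_lt hδ).1 this
    rw [sub_zero, abs_of_pos hpi] at h2
    have h3 : ε / (4 * Real.pi) * (2 * Real.pi) = ε / 2 := by
      field_simp
      norm_num
    rw [h3] at h2
    linarith
  · have hd1 : ContinuousAt (fderiv ℝ (Ph f z)) 0 := by
      have : ContDiffAt ℝ ∞ (fderiv ℝ (Ph f z)) 0 := hsm.fderiv_right (by rfl)
      exact this.continuousAt
    have hb : ∀ᶠ w in 𝓝 (0 : ℂ), ‖fderiv ℝ (Ph f z) w‖ < ‖fderiv ℝ (Ph f z) 0‖ + 1 :=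
      hd1.norm.eventually_lt continuousAt_const (by simp)
    have hdf : ∀ᶠ w in 𝓝 (0 : ℂ), DifferentiableAt ℝ (Ph f z) w := by
      have h1 : ContDiffAt ℝ 1 (Ph f z) 0 := hsm.of_le (by exact_mod_cast le_top)
      filter_upwards [h1.eventually (by simp)] with w hw
      exact hw.differentiableAt (by simp)
    obtain ⟨δ, hδ, hd⟩ := Metric.eventually_nhds_iff.1 (hb.and hdf)
    set C := ‖fderiv ℝ (Ph f z) 0‖ + 1 with hC
    have hlim : Tendsto (fun u : ℝ => C * Real.exp u * (2 * Real.pi)) atBot (𝓝 0) := by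
      have := (Real.tendsto_exp_atBot.const_mul C).mul_const (2 * Real.pi)
      simpa using this
    refine squeeze_zero_norm' ?_ hlim
    filter_upwards [Iio_mem_atBot 0, Iio_mem_atBot (Real.log δ)] with u hu hu2
    have h2 : ‖∫ θ in (0 : ℝ)..(2 * Real.pi), Da F (u, θ)‖ ≤
        C * Real.exp u * |2 * Real.pi - 0| := by
      refine intervalIntegral.norm_integral_le_of_norm_le_const fun θ _ => ?_
      have h3 : dist (Complex.exp (u + θ * Complex.I)) 0 < δ := by
        rw [dist_zero_right, hnorm]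
        have : u < Real.log δ := hu2
        exact (Real.lt_log_iff_exp_lt hδ).1 this
      obtain ⟨h4, h5⟩ := hd h3
      have h6 : HasDerivAt (fun t : ℝ => Complex.exp (t + θ * Complex.I))
          (Complex.exp (u + θ * Complex.I)) u := by
        have h7 : HasDerivAt (fun t : ℝ => (t : ℂ) + θ * Complex.I) 1 u :=
          (Complex.ofRealCLM.hasDerivAt (x := u)).add_const _
        simpa using h7.cexp
      have h8 := h5.hasFDerivAt.comp_hasDerivAt u h6
      have h9 : Da F (u, θ) = fderiv ℝ (Ph f z) (Complex.exp (u + θ * Complex.I))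
          (Complex.exp (u + θ * Complex.I)) := (hasA hs' hu θ).unique h8
      rw [h9]
      calc ‖fderiv ℝ (Ph f z) (Complex.exp (u + θ * Complex.I))
            (Complex.exp (u + θ * Complex.I))‖
          ≤ ‖fderiv ℝ (Ph f z) (Complex.exp (u + θ * Complex.I))‖ *
            ‖Complex.exp (u + θ * Complex.I)‖ := ContinuousLinearMap.le_opNorm _ _
        _ ≤ C * Real.exp u := by
            rw [hnorm]
            gcongr
    rwa [sub_zero, abs_of_pos hpi] at h2


theorem pl_cont' {μ : ℝ} {g : ℂ → ℂ} (hg : LapM μ g) (z : ℍ) {u : ℝ} (hu : u < 0) :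
    Continuous (pl g z u) := by
  have h1 : Continuous fun θ : ℝ => dc z (Complex.exp (u + θ * Complex.I)) := by
    unfold dc
    refine Continuous.div (by fun_prop) (by fun_prop) fun θ h0 => ?_
    have : Complex.exp (u + θ * Complex.I) = 1 := by linear_combination -h0
    have h2 := CirAux.norm_exp_lt hu θ
    rw [this] at h2
    simp at h2
  have h2 : ∀ θ : ℝ, dc z (Complex.exp (u + θ * Complex.I)) ∈ {w : ℂ | 0 < w.im} := fun θ =>
    psi_im_pos z _ (CirAux.norm_exp_lt hu θ)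
  exact hg.smooth.continuousOn.comp_continuous h1 h2

theorem K_ne' {μ : ℝ} {g : ℂ → ℂ} (hg : LapM μ g) (z : ℍ) {u : ℝ} (hu : u < 0)
    (hpos : ∀ θ : ℝ, 0 < (pl g z u θ).re) :
    ∫ θ in (0 : ℝ)..(2 * Real.pi), pl g z u θ ≠ 0 := by
  intro h0
  have hi : IntervalIntegrable (pl g z u) volume 0 (2 * Real.pi) :=
    (pl_cont' hg z hu).intervalIntegrable _ _
  have h1 := Complex.reCLM.intervalIntegral_comp_comm hi
  rw [h0] at h1
  simp only [Complex.reCLM_apply, Complex.zero_re] at h1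
  have h2 : 0 < ∫ θ in (0 : ℝ)..(2 * Real.pi), (pl g z u θ).re := by
    refine intervalIntegral.intervalIntegral_pos_of_pos_on ?_ (fun θ _ => hpos θ) (by positivity)
    exact (Complex.continuous_re.comp (pl_cont' hg z hu)).intervalIntegrable _ _
  linarith

theorem const_lt {W : ℝ → ℂ} {u1 : ℝ} (hW : ∀ u : ℝ, u < u1 → HasDerivAt W 0 u) {c : ℂ}
    (hlim : Filter.Tendsto W Filter.atBot (𝓝 c)) : ∀ u : ℝ, u < u1 → W u = c := by
  intro u hu
  have h1 : ∀ v : ℝ, v < u1 → W v = W u := by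
    intro v hv
    refine isOpen_Iio.is_const_of_deriv_eq_zero (isPreconnected_Iio (a := u1))
      (fun x hx => (hW x hx).differentiableAt.differentiableWithinAt)
      (fun x hx => (hW x hx).deriv) hv hu
  have h2 : Filter.Tendsto W Filter.atBot (𝓝 (W u)) := by
    refine tendsto_const_nhds.congr' ?_
    filter_upwards [Filter.eventually_lt_atBot u1] with v hv
    exact (h1 v hv).symm
  exact tendsto_nhds_unique h2 hlim

theorem circle' {μ : ℝ} {f g : ℂ → ℂ} (hf : LapM μ f) (hg : LapM μ g) (z : ℍ) {u1 : ℝ}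
    (hu1 : u1 ≤ 0) (hpos : ∀ u : ℝ, u < u1 → ∀ θ : ℝ, 0 < (pl g z u θ).re) (hgz : g z ≠ 0)
    (ζ : ℂ) (hζ : ζ ≠ 0 → Real.log ‖ζ‖ < u1) :
      (∫ θ in (0 : ℝ)..(2 * Real.pi), f (dc z (Complex.exp (θ * Complex.I) * ζ))) * g z =
        (∫ θ in (0 : ℝ)..(2 * Real.pi), g (dc z (Complex.exp (θ * Complex.I) * ζ))) * f z := by
  obtain ⟨G, G₁, hG, hG', hG₁', hGl, hG₁l⟩ := mean' hf z
  obtain ⟨K, K₁, hK, hK', hK₁', hKl, hK₁l⟩ := mean' hg z
  by_cases h0 : ζ = 0
  · subst h0
    have h1 : dc z 0 = z := by simp [dc]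
    simp only [mul_zero, h1, intervalIntegral.integral_const, sub_zero]
    simp only [Complex.real_smul]
    ring
  have hu : Real.log ‖ζ‖ < u1 := hζ h0
  have hu0 : Real.log ‖ζ‖ < 0 := hu.trans_le hu1
  rw [CirAux.shift z h0, CirAux.shift z h0, ← hG _ hu0, ← hK _ hu0]
  have hKne : ∀ u : ℝ, u < u1 → K u ≠ 0 := by
    intro u hu
    rw [hK u (hu.trans_le hu1)]
    exact K_ne' hg z (hu.trans_le hu1) (hpos u hu)
  have hW : ∀ u : ℝ, u < 0 → G u * K₁ u - G₁ u * K u = 0 := by
    refine const_lt (W := fun u => G u * K₁ u - G₁ u * K u) (fun u hu => ?_) ?_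
    · have := ((hG' u hu).mul (hK₁' u hu)).sub ((hG₁' u hu).mul (hK' u hu))
      refine this.congr_deriv ?_
      ring
    · have := (hGl.mul hK₁l).sub (hG₁l.mul hKl)
      simpa using this
  have hQ : ∀ u : ℝ, u < u1 → G u / K u = (2 * Real.pi * f z) / (2 * Real.pi * g z) := by
    refine const_lt (W := fun u => G u / K u) (fun u hu => ?_) ?_
    · have := (hG' u (hu.trans_le hu1)).div (hK' u (hu.trans_le hu1)) (hKne u hu)
      refine this.congr_deriv ?_
      have h2 := hW u (hu.trans_le hu1)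
      have h3 : G₁ u * K u - G u * K₁ u = 0 := by linear_combination -h2
      rw [h3, zero_div]
    · refine hGl.div hKl ?_
      simp [hgz, Real.pi_ne_zero]
  have h3 := hQ _ hu
  have hpi : (2 * Real.pi * g z : ℂ) ≠ 0 := by simp [hgz, Real.pi_ne_zero]
  rw [div_eq_div_iff (hKne _ hu) hpi] at h3
  have hpi' : (2 * Real.pi : ℂ) ≠ 0 := by simp [Real.pi_ne_zero]
  refine mul_left_cancel₀ hpi' ?_
  linear_combination h3

theorem tanh_lt_iff (x y : ℝ) : Real.tanh x < Real.tanh y ↔ x < y := by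
  rw [← Real.artanh_lt_artanh_iff ⟨Real.neg_one_lt_tanh x, Real.tanh_lt_one x⟩
    ⟨Real.neg_one_lt_tanh y, Real.tanh_lt_one y⟩, Real.artanh_tanh, Real.artanh_tanh]

theorem lapM_cont {μ : ℝ} {f : ℂ → ℂ} (hf : LapM μ f) : Continuous fun w : ℍ => f w := by
  have h := hf.smooth.continuousOn
  exact h.comp_continuous continuous_coe fun w => w.im_pos

theorem key' {μ : ℝ} {f g : ℂ → ℂ} (hf : LapM μ f) (hg : LapM μ g) (z : ℍ) {ρ : ℝ} (hρ : 0 < ρ)
    (hpos : ∀ w : ℍ, dist z w < 2 * ρ → 0 < (g w).re) :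
    (∫ w in closedBall z ρ, f w) * g z = (∫ w in closedBall z ρ, g w) * f z := by
  have ht0 : 0 < Real.tanh ρ := by
    have := (tanh_lt_iff 0 ρ).2 hρ
    rwa [Real.tanh_zero] at this
  have ht1 : Real.tanh ρ < 1 := Real.tanh_lt_one ρ
  have hgz : g z ≠ 0 := by
    intro h1
    have h2 := hpos z (by rw [dist_self]; linarith)
    rw [h1] at h2
    simp at h2
  have hpl : ∀ u : ℝ, u < Real.log (Real.tanh ρ) → ∀ θ : ℝ, 0 < (pl g z u θ).re := by
    intro u hu θ
    have hu0 : u < 0 := hu.trans (Real.log_neg ht0 ht1)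
    have hn := CirAux.norm_exp_lt hu0 θ
    set ζ : ℂ := Complex.exp (u + θ * Complex.I) with hζ
    have h1 : zt z (ofComplex (psi z ζ)) = ζ := zt_ofComplex_psi z ζ hn
    have h2 : ‖ζ‖ = Real.exp u := by
      rw [hζ, Complex.norm_exp]
      simp
    have h3 : Real.exp u < Real.tanh ρ := (Real.lt_log_iff_exp_lt ht0).1 hu
    have h4 := norm_zt_eq z (ofComplex (psi z ζ))
    rw [h1, h2] at h4
    rw [h4, tanh_lt_iff] at h3
    have h5 := hpos (ofComplex (psi z ζ)) (by linarith)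
    have h6 : ((ofComplex (psi z ζ) : ℍ) : ℂ) = psi z ζ := by
      rw [ofComplex_apply_of_im_pos (psi_im_pos z ζ hn)]
    rw [h6] at h5
    exact h5
  have hc : ∀ w ∈ closedBall z ρ,
      (∫ θ in (0 : ℝ)..(2 * Real.pi), f (dc z (Complex.exp (θ * Complex.I) * zt z w))) * g z =
        (∫ θ in (0 : ℝ)..(2 * Real.pi), g (dc z (Complex.exp (θ * Complex.I) * zt z w))) * f z := by
    intro w hw
    refine circle' hf hg z (Real.log_neg ht0 ht1).le hpl hgz (zt z w) fun h0 => ?_
    refine Real.log_lt_log (norm_pos_iff.2 h0) ?_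
    rw [norm_zt_eq, tanh_lt_iff]
    rw [mem_closedBall, dist_comm] at hw
    linarith
  have hrot : ∀ (F : ℂ → ℂ) (w : ℍ), (∫ φ in (0 : ℝ)..(2 * Real.pi),
      F ((rot z (-(φ / 2)) • w : ℍ) : ℂ)) =
      ∫ φ in (0 : ℝ)..(2 * Real.pi), F (dc z (Complex.exp (φ * Complex.I) * zt z w)) := by
    intro F w
    congr 1
    funext φ
    rw [rot_smul]
    rfl
  have s1 := Mv.swap z ρ (fun w : ℍ => f w) (lapM_cont hf)
  have s2 := Mv.swap z ρ (fun w : ℍ => g w) (lapM_cont hg)
  simp only [hrot] at s1 s2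
  have hpi : (2 * Real.pi : ℂ) ≠ 0 := by
    exact_mod_cast (by positivity : (2 * Real.pi : ℝ) ≠ 0)
  have h1 : ((2 * Real.pi : ℂ) * ∫ w in closedBall z ρ, f w) * g z =
      ((2 * Real.pi : ℂ) * ∫ w in closedBall z ρ, g w) * f z := by
    rw [s1, s2, ← integral_mul_const, ← integral_mul_const]
    exact setIntegral_congr_fun measurableSet_closedBall hc
  refine mul_left_cancel₀ hpi ?_
  rw [← mul_assoc, ← mul_assoc]
  exact h1

/-- the comparison function -/
def gq (t a : ℝ) (w : ℂ) : ℂ := ((w.im ^ (1 / 2 : ℝ) * Real.cos (t * (Real.log w.im - a)) : ℝ) : ℂ)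

theorem gq_smooth (t a : ℝ) : ContDiffOn ℝ (⊤ : ℕ∞) (gq t a) {w : ℂ | 0 < w.im} := by
  have h1 : ContDiffOn ℝ (⊤ : ℕ∞) (fun w : ℂ => w.im) {w : ℂ | 0 < w.im} :=
    Complex.imCLM.contDiff.contDiffOn
  have h2 := h1.rpow_const_of_ne (p := (1 / 2 : ℝ)) (fun w hw => (ne_of_gt hw))
  have h3 := h1.log (fun w hw => (ne_of_gt hw))
  have h4 : ContDiffOn ℝ (⊤ : ℕ∞) (fun w : ℂ => t * (Real.log w.im - a)) {w : ℂ | 0 < w.im} :=
    contDiffOn_const.mul (h3.sub contDiffOn_const)
  have h5 : ContDiffOn ℝ (⊤ : ℕ∞) (fun w : ℂ => Real.cos (t * (Real.log w.im - a)))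
      {w : ℂ | 0 < w.im} := Real.contDiff_cos.comp_contDiffOn h4
  exact Complex.ofRealCLM.contDiff.comp_contDiffOn (h2.mul h5)

theorem dP {s : ℝ} (hs : 0 < s) :
    HasDerivAt (fun s : ℝ => s ^ (1 / 2 : ℝ)) (s ^ (1 / 2 : ℝ) * (1 / 2) * s⁻¹) s := by
  have h1 := Real.hasDerivAt_rpow_const (x := s) (p := (1 / 2 : ℝ)) (Or.inl hs.ne')
  refine h1.congr_deriv ?_
  rw [Real.rpow_sub_one hs.ne']
  ring

theorem dT (t a : ℝ) {s : ℝ} (hs : 0 < s) :
    HasDerivAt (fun s : ℝ => t * (Real.log s - a)) (t * s⁻¹) s :=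
  ((Real.hasDerivAt_log hs.ne').sub_const a).const_mul t

theorem d1 (t a : ℝ) {s : ℝ} (hs : 0 < s) :
    HasDerivAt (fun s : ℝ => s ^ (1 / 2 : ℝ) * Real.cos (t * (Real.log s - a)))
      (s ^ (1 / 2 : ℝ) * s⁻¹ * (1 / 2 * Real.cos (t * (Real.log s - a)) -
        t * Real.sin (t * (Real.log s - a)))) s := by
  have h1 := (dP hs).mul ((dT t a hs).cos)
  refine h1.congr_deriv ?_
  ring

theorem d2 (t a : ℝ) {s : ℝ} (hs : 0 < s) :
    HasDerivAt (fun s : ℝ => s ^ (1 / 2 : ℝ) * s⁻¹ * (1 / 2 * Real.cos (t * (Real.log s - a)) -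
        t * Real.sin (t * (Real.log s - a))))
      (-(1 / 4 + t ^ 2) * (s ^ (1 / 2 : ℝ) * (s⁻¹) ^ 2 * Real.cos (t * (Real.log s - a)))) s := by
  have h1 := (((dP hs).mul (hasDerivAt_inv hs.ne')).mul
    ((((dT t a hs).cos).const_mul (1 / 2)).sub (((dT t a hs).sin).const_mul t)))
  refine h1.congr_deriv ?_
  simp only [Pi.mul_apply, Pi.sub_apply]
  rw [← inv_pow]
  ring

theorem gq_lap (t a : ℝ) : LapM (1 / 4 + t ^ 2) (gq t a) where
  smooth := gq_smooth _ _
  eq z := by
    have hz := z.im_pos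
    have e1 : ∀ s : ℝ, deriv (fun x : ℝ => gq t a ((x : ℂ) + (z.im : ℂ) * Complex.I)) s = 0 := by
      intro s
      have : (fun x : ℝ => gq t a ((x : ℂ) + (z.im : ℂ) * Complex.I)) =
          fun _ => ((z.im ^ (1 / 2 : ℝ) * Real.cos (t * (Real.log z.im - a)) : ℝ) : ℂ) := by
        funext x
        simp [gq]
      rw [this, deriv_const]
    have e2 : (fun x : ℝ => gq t a ((z.re : ℂ) + (x : ℂ) * Complex.I)) =
        fun x : ℝ => ((x ^ (1 / 2 : ℝ) * Real.cos (t * (Real.log x - a)) : ℝ) : ℂ) := by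
      funext x
      simp [gq]
    have e4 : deriv (fun s : ℝ => deriv
        (fun x : ℝ => ((x ^ (1 / 2 : ℝ) * Real.cos (t * (Real.log x - a)) : ℝ) : ℂ)) s) z.im =
        ((-(1 / 4 + t ^ 2) * (z.im ^ (1 / 2 : ℝ) * (z.im⁻¹) ^ 2 *
          Real.cos (t * (Real.log z.im - a))) : ℝ) : ℂ) := by
      have h : (fun s : ℝ => deriv
          (fun x : ℝ => ((x ^ (1 / 2 : ℝ) * Real.cos (t * (Real.log x - a)) : ℝ) : ℂ)) s)
          =ᶠ[𝓝 z.im] fun s => ((s ^ (1 / 2 : ℝ) * s⁻¹ * (1 / 2 * Real.cos (t * (Real.log s - a)) -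
        t * Real.sin (t * (Real.log s - a))) : ℝ) : ℂ) := by
        filter_upwards [lt_mem_nhds hz] with s hs using (d1 t a hs).ofReal_comp.deriv
      rw [h.deriv_eq]
      exact (d2 t a hz).ofReal_comp.deriv
    have e5 : gq t a (z : ℂ) =
      ((z.im ^ (1 / 2 : ℝ) * Real.cos (t * (Real.log z.im - a)) : ℝ) : ℂ) := rfl
    simp only [e1, e2, e4, e5, deriv_const, zero_add]
    rw [← Complex.ofReal_pow, ← Complex.ofReal_neg, ← Complex.ofReal_mul, ← Complex.ofReal_mul]
    congr 1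
    have hne := hz.ne'
    field_simp

/-- logarithm of the imaginary part on the ball -/
theorem log_im_le {z w : ℍ} {r : ℝ} (h : dist z w ≤ r) : |Real.log w.im - Real.log z.im| ≤ r := by
  have h1 := UpperHalfPlane.dist_log_im_le w z
  rw [Real.dist_eq, dist_comm] at h1
  exact h1.trans h

theorem half_le {t ρ : ℝ} (hρ : 0 < ρ) (hρ2 : ρ ≤ 1 / 2) (ht : 0 ≤ t) (htρ : t * ρ ≤ 1 / 2) :
    1 / 2 ≤ (bv ρ)⁻¹ * ∫ w in closedBall (I : ℍ) ρ,
      (w.im ^ (1 / 2 : ℝ) * Real.cos (t * Real.log w.im)) := by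
  have hb := bv_pos hρ
  have hcont : Continuous fun w : ℍ => (w.im ^ (1 / 2 : ℝ) * Real.cos (t * Real.log w.im)) := by
    have h1 : Continuous fun w : ℍ => w.im := UpperHalfPlane.continuous_im
    refine (h1.rpow_const (fun w => Or.inl w.im_ne_zero)).mul ?_
    exact Real.continuous_cos.comp (continuous_const.mul (h1.log (fun w => w.im_ne_zero)))
  have hle : ∫ w in closedBall (I : ℍ) ρ, (1 / 2 : ℝ) ≤ ∫ w in closedBall (I : ℍ) ρ,
      (w.im ^ (1 / 2 : ℝ) * Real.cos (t * Real.log w.im)) := by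
    refine setIntegral_mono_on ?_ ?_ measurableSet_closedBall ?_
    · exact (continuous_const.continuousOn).integrableOn_compact (isCompact_closedBall _ _)
    · exact (hcont.continuousOn).integrableOn_compact (isCompact_closedBall _ _)
    · intro w hw
      rw [mem_closedBall, dist_comm] at hw
      have h1 := log_im_le hw
      have h2 : (I : ℍ).im = 1 := by simp
      rw [h2, Real.log_one, sub_zero] at h1
      have h3 := abs_le.1 h1
      have h4 : (3 / 4 : ℝ) ≤ w.im ^ (1 / 2 : ℝ) := by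
        rw [Real.rpow_def_of_pos w.im_pos]
        have h5 := Real.add_one_le_exp (Real.log w.im * (1 / 2))
        linarith [h3.1]
      have h6 : (7 / 8 : ℝ) ≤ Real.cos (t * Real.log w.im) := by
        have h7 := Real.one_sub_sq_div_two_le_cos (x := t * Real.log w.im)
        have h8 : |t * Real.log w.im| ≤ 1 / 2 := by
          rw [abs_mul, abs_of_nonneg ht]
          exact (mul_le_mul_of_nonneg_left h1 ht).trans htρ
        have h9 : (t * Real.log w.im) ^ 2 ≤ 1 / 4 := by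
          rw [← sq_abs]
          nlinarith [abs_nonneg (t * Real.log w.im)]
        linarith
      nlinarith
  rw [setIntegral_const, smul_eq_mul] at hle
  have h10 : (volume.real (closedBall (I : ℍ) ρ)) = bv ρ := rfl
  rw [h10] at hle
  rw [inv_mul_eq_div, le_div_iff₀ hb]
  linarith

theorem lam_ge {ν ρ : ℝ} (hρ : 0 < ρ) (hρ2 : ρ ≤ 1 / 2) (hν0 : 0 ≤ ν) (hν : ν ≤ 1 / 2) :
    1 / 2 ≤ lam ν ρ := by
  have hb := bv_pos hρ
  have hcont : Continuous fun w : ℍ => w.im ^ (1 / 2 + ν) := by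
    have h1 : Continuous fun w : ℍ => w.im := UpperHalfPlane.continuous_im
    exact (h1.rpow_const (fun w => Or.inl w.im_ne_zero))
  have hle : ∫ w in closedBall (I : ℍ) ρ, (1 / 2 : ℝ) ≤ ∫ w in closedBall (I : ℍ) ρ,
      w.im ^ (1 / 2 + ν) := by
    refine setIntegral_mono_on ?_ ?_ measurableSet_closedBall ?_
    · exact (continuous_const.continuousOn).integrableOn_compact (isCompact_closedBall _ _)
    · exact (hcont.continuousOn).integrableOn_compact (isCompact_closedBall _ _)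
    · intro w hw
      rw [mem_closedBall, dist_comm] at hw
      have h1 := log_im_le hw
      have h2 : (I : ℍ).im = 1 := by simp
      rw [h2, Real.log_one, sub_zero] at h1
      have h3 := abs_le.1 h1
      rw [Real.rpow_def_of_pos w.im_pos]
      have h5 := Real.add_one_le_exp (Real.log w.im * (1 / 2 + ν))
      nlinarith [h3.1]
  rw [setIntegral_const, smul_eq_mul] at hle
  have h10 : (volume.real (closedBall (I : ℍ) ρ)) = bv ρ := rfl
  rw [h10] at hle
  rw [lam, inv_mul_eq_div, le_div_iff₀ hb]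
  linarith

theorem mvt {t : ℝ} {f : ℂ → ℂ} (hf : LapM (1 / 4 + t ^ 2) f) {ρ : ℝ} (hρ : 0 < ρ) (ht : 0 ≤ t)
    (htρ : t * ρ ≤ 1 / 2) (z : ℍ) :
    Av ρ (fun w : ℍ => f w) z = (((bv ρ)⁻¹ * ∫ w in closedBall (I : ℍ) ρ,
      (w.im ^ (1 / 2 : ℝ) * Real.cos (t * Real.log w.im)) : ℝ) : ℂ) * f z := by
  have hg := gq_lap t (Real.log z.im)
  have hpos : ∀ w : ℍ, dist z w < 2 * ρ → 0 < (gq t (Real.log z.im) w).re := by
    intro w hw
    have h1 : (gq t (Real.log z.im) w).re =
      w.im ^ (1 / 2 : ℝ) * Real.cos (t * (Real.log w.im - Real.log z.im)) := Complex.ofReal_re _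
    rw [h1]
    refine mul_pos (Real.rpow_pos_of_pos w.im_pos _) ?_
    have h2 := log_im_le hw.le
    have h3 : |t * (Real.log w.im - Real.log z.im)| ≤ 1 := by
      rw [abs_mul, abs_of_nonneg ht]
      have h4 := mul_le_mul_of_nonneg_left h2 ht
      linarith
    have h5 := abs_le.1 h3
    have h6 := Real.pi_gt_three
    exact Real.cos_pos_of_mem_Ioo ⟨by linarith [h5.1], by linarith [h5.2]⟩
  have key := key' hf hg z hρ hpos
  have hJ : ∫ w in closedBall z ρ, gq t (Real.log z.im) w =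
      ((z.im ^ (1 / 2 : ℝ) : ℝ) : ℂ) * ((∫ w in closedBall (I : ℍ) ρ,
        (w.im ^ (1 / 2 : ℝ) * Real.cos (t * Real.log w.im)) : ℝ) : ℂ) := by
    rw [Mv.aff_int z ρ fun w : ℍ => gq t (Real.log z.im) w, ← integral_complex_ofReal,
      ← integral_const_mul]
    congr 1
    funext w
    have h1 : gq t (Real.log z.im) ((aff z • w : ℍ) : ℂ) =
      (((aff z • w : ℍ).im ^ (1 / 2 : ℝ) *
        Real.cos (t * (Real.log (aff z • w : ℍ).im - Real.log z.im)) : ℝ) : ℂ) := rfl
    rw [h1, im_aff, Real.mul_rpow z.im_pos.le w.im_pos.le, Real.log_mul z.im_ne_zero w.im_ne_zero,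
      add_sub_cancel_left]
    push_cast
    ring
  have hgz : gq t (Real.log z.im) z = ((z.im ^ (1 / 2 : ℝ) : ℝ) : ℂ) := by
    have h1 : gq t (Real.log z.im) z =
      ((z.im ^ (1 / 2 : ℝ) * Real.cos (t * (Real.log z.im - Real.log z.im)) : ℝ) : ℂ) := rfl
    rw [h1, sub_self, mul_zero, Real.cos_zero, mul_one]
  have hne : ((z.im ^ (1 / 2 : ℝ) : ℝ) : ℂ) ≠ 0 := by
    exact_mod_cast (Real.rpow_pos_of_pos z.im_pos _).ne'
  rw [hJ, hgz, mul_comm, mul_assoc] at key
  have key2 := mul_left_cancel₀ hne key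
  rw [Av, key2, Complex.real_smul]
  push_cast
  ring

/-- P12: the mean value property with bounded eigenvalue -/
theorem p12 : S_mvR := by
  intro R
  have hR : 0 ≤ |R| := abs_nonneg R
  have hpos : 0 < 2 * (1 + |R|) := by linarith
  refine ⟨1 / (2 * (1 + |R|)), by positivity, ?_, ?_⟩
  · rw [div_le_div_iff₀ hpos (by norm_num)]
    linarith
  intro μ h0 hμ
  set ρ : ℝ := 1 / (2 * (1 + |R|)) with hρdef
  have hρ : 0 < ρ := by positivity
  have hρ2 : ρ ≤ 1 / 2 := by
    rw [hρdef, div_le_div_iff₀ hpos (by norm_num)]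
    linarith
  by_cases h4 : μ ≤ 1 / 4
  · set ν : ℝ := Real.sqrt (1 / 4 - μ) with hν
    have hνsq : ν ^ 2 = 1 / 4 - μ := Real.sq_sqrt (by linarith)
    have hν0 : 0 ≤ ν := Real.sqrt_nonneg _
    have hν2 : ν ≤ 1 / 2 := by nlinarith
    refine ⟨lam ν ρ, lam_ge hρ hρ2 hν0 hν2, fun f hf z => ?_⟩
    refine mv_all ν f ⟨hf.smooth, fun z => ?_⟩ z ρ hρ
    have h5 : ((1 / 4 - ν ^ 2 : ℝ) : ℂ) = (μ : ℂ) := by
      rw [hνsq]
      congr 1
      ring
    rw [h5]
    exact hf.eq z
  · push Not at h4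
    set t : ℝ := Real.sqrt (μ - 1 / 4) with ht
    have htsq : t ^ 2 = μ - 1 / 4 := Real.sq_sqrt (by linarith)
    have ht0 : 0 ≤ t := Real.sqrt_nonneg _
    have hR' : μ ≤ |R| := hμ.trans (le_abs_self R)
    have htR : t ≤ 1 + |R| := by nlinarith
    have htρ : t * ρ ≤ 1 / 2 := by
      have h6 : (1 + |R|) * ρ = 1 / 2 := by
        rw [hρdef]
        field_simp
      calc t * ρ ≤ (1 + |R|) * ρ := mul_le_mul_of_nonneg_right htR hρ.le
        _ = 1 / 2 := h6
    have hμt : μ = 1 / 4 + t ^ 2 := by linarith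
    refine ⟨_, half_le hρ hρ2 ht0 htρ, fun f hf z => ?_⟩
    rw [hμt] at hf
    exact mvt hf hρ ht0 htρ z

end

end Pool.Agent.H800.LP
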